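import Pool.Agent.H84.TI.Stm

/-! Crew TI, parts CAT and SDO (helper10). -/

set_option autoImplicit false

open Finset

namespace Pool.Agent.H10.TI

open Pool.Agent.H84.TI

theorem window_inj {M : ℕ} {x0 x y : ℕ} (hx : x ∈ Ico x0 (x0 + M)) (hy : y ∈ Ico x0 (x0 + M))
    (h : (x : ZMod M) = (y : ZMod M)) : x = y := by
  rw [Finset.mem_Ico] at hx hy
  rw [ZMod.natCast_eq_natCast_iff] at h
  obtain ⟨u, rfl⟩ := Nat.exists_eq_add_of_le hx.1
  obtain ⟨v, rfl⟩ := Nat.exists_eq_add_of_le hy.1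
  have h1 : u ≡ v [MOD M] := Nat.ModEq.add_left_cancel' x0 h
  rw [h1.eq_of_lt_of_lt (by omega) (by omega)]

theorem cat : S_CAT := by
  intro M _ B x0 t
  refine Finset.card_bij (fun (x : ℕ) _ => (x : ZMod M) - t) ?_ ?_ ?_
  · intro x hx
    exact (Finset.mem_filter.1 hx).2
  · intro x hx y hy h
    exact window_inj (Finset.mem_filter.1 hx).1 (Finset.mem_filter.1 hy).1 (sub_left_inj.1 h)
  · intro b hb
    have h1 : (((x0 + ((b + t) - (x0 : ZMod M)).val : ℕ)) : ZMod M) - t = b := by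
      push_cast
      rw [ZMod.natCast_zmod_val]
      ring
    refine ⟨x0 + ((b + t) - (x0 : ZMod M)).val, ?_, h1⟩
    refine Finset.mem_filter.2 ⟨Finset.mem_Ico.2 ⟨by omega, ?_⟩, ?_⟩
    · have := ZMod.val_lt ((b + t) - (x0 : ZMod M))
      omega
    · rw [h1]; exact hb

theorem sdo : S_SDO := by
  intro M _ B x0
  rw [← Finset.card_sigma, sq, ← Finset.card_product]
  refine Finset.card_le_card_of_injOn
    (fun q : (_ : ZMod M) × ℕ => ((q.2 : ZMod M) - q.1, (q.2 : ZMod M) + (q.2 : ZMod M) - q.1)) ?_ ?_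
  · rintro ⟨t, a⟩ hq
    have h1 := (Finset.mem_sigma.1 hq).2
    have h2 := Finset.mem_filter.1 h1
    have h3 := (Finset.mem_filter.1 h2.1).2
    have h4 := (Finset.mem_filter.1 h2.2).2
    push_cast at h4
    exact Finset.mem_coe.2 (Finset.mem_product.2 ⟨h3, h4⟩)
  · rintro ⟨t, a⟩ hq ⟨t', a'⟩ hq' h
    have h1 := (Finset.mem_filter.1 (Finset.mem_filter.1 (Finset.mem_sigma.1 hq).2).1).1
    have h1' := (Finset.mem_filter.1 (Finset.mem_filter.1 (Finset.mem_sigma.1 hq').2).1).1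
    simp only [Prod.mk.injEq] at h
    have h2 : (a : ZMod M) = (a' : ZMod M) := by
      have := congrArg₂ (fun x y => y - x) h.1 h.2
      simpa using this
    have h3 : a = a' := window_inj h1 h1' h2
    subst h3
    have h4 : t = t' := sub_right_injective h.1
    rw [h4]

end Pool.Agent.H10.TI
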