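import Pool.Agent.H84.TI.Stm

/-! Crew TI, part SID (helper10): Ruzsa's Sidon set modulo `p (p - 1)`. -/

set_option autoImplicit false

open Finset

namespace Pool.Agent.H10.TI

open Pool.Agent.H84.TI

theorem sid : S_SID := by
  classical
  intro p hp hp2
  have hpf : Fact p.Prime := ⟨hp⟩
  obtain ⟨g, hgen⟩ := IsCyclic.exists_generator (α := (ZMod p)ˣ)
  have hord : orderOf g = p - 1 := by
    rw [orderOf_eq_card_of_forall_mem_zpowers hgen, Nat.card_eq_fintype_card,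
      ZMod.card_units_eq_totient, Nat.totient_prime hp]
  have hk0 : 0 < p - 1 := by omega
  have hcop : Nat.Coprime (p - 1) p := by
    rw [Nat.coprime_comm]
    refine (Nat.Prime.coprime_iff_not_dvd hp).2 fun h => ?_
    have := Nat.le_of_dvd hk0 h
    omega
  set γ : ZMod p := (g : ZMod p) with hγ
  have hg1 : γ ^ (p - 1) = 1 := by
    rw [hγ, ← Units.val_pow_eq_pow_val, ← hord, pow_orderOf_eq_one, Units.val_one]
  have hinj : ∀ i j : Fin (p - 1), γ ^ (i : ℕ) = γ ^ (j : ℕ) → i = j := by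
    intro i j hij
    rw [hγ, ← Units.val_pow_eq_pow_val, ← Units.val_pow_eq_pow_val] at hij
    have h1 := Units.ext hij
    have h2 : (i : ℕ) = (j : ℕ) := by
      apply pow_injOn_Iio_orderOf (x := g) _ _ h1
      · rw [hord]; exact i.2
      · rw [hord]; exact j.2
    exact Fin.ext h2
  let a : Fin (p - 1) → ℕ := fun i => (Nat.chineseRemainder hcop (i : ℕ) (γ ^ (i : ℕ)).val : ℕ)
  have ha1 : ∀ i, a i ≡ (i : ℕ) [MOD (p - 1)] := fun i =>
    (Nat.chineseRemainder hcop (i : ℕ) (γ ^ (i : ℕ)).val).2.1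
  have ha2 : ∀ i, a i ≡ (γ ^ (i : ℕ)).val [MOD p] := fun i =>
    (Nat.chineseRemainder hcop (i : ℕ) (γ ^ (i : ℕ)).val).2.2
  have ha3 : ∀ i, ((a i : ℕ) : ZMod p) = γ ^ (i : ℕ) := fun i => by
    have := ha2 i
    rw [← ZMod.natCast_eq_natCast_iff] at this
    rw [this, ZMod.natCast_zmod_val]
  let α : Fin (p - 1) → ZMod (p * (p - 1)) := fun i => ((a i : ℕ) : ZMod (p * (p - 1)))
  have key : ∀ i j k l : Fin (p - 1), α i + α j = α k + α l → (i = k ∧ j = l) ∨ (i = l ∧ j = k) := by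
    intro i j k l h
    have h1 : a i + a j ≡ a k + a l [MOD p * (p - 1)] := by
      rw [← ZMod.natCast_eq_natCast_iff]
      push_cast
      exact h
    have h2 : a i + a j ≡ a k + a l [MOD p] := h1.of_mul_right _
    have h3 : a i + a j ≡ a k + a l [MOD (p - 1)] := h1.of_mul_left _
    have h4 : γ ^ (i : ℕ) + γ ^ (j : ℕ) = γ ^ (k : ℕ) + γ ^ (l : ℕ) := by
      rw [← ZMod.natCast_eq_natCast_iff] at h2
      push_cast at h2
      rwa [ha3, ha3, ha3, ha3] at h2
    have h5 : (i : ℕ) + j ≡ (k : ℕ) + l [MOD (p - 1)] :=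
      (((ha1 i).add (ha1 j)).symm.trans h3).trans ((ha1 k).add (ha1 l))
    have h6 : γ ^ (i : ℕ) * γ ^ (j : ℕ) = γ ^ (k : ℕ) * γ ^ (l : ℕ) := by
      rw [← pow_add, ← pow_add]
      exact pow_eq_pow_of_modEq h5 hg1
    have h7 : (γ ^ (i : ℕ) - γ ^ (k : ℕ)) * (γ ^ (i : ℕ) - γ ^ (l : ℕ)) = 0 := by
      linear_combination γ ^ (i : ℕ) * h4 - h6
    rcases mul_eq_zero.1 h7 with h8 | h8
    · left
      have e1 := sub_eq_zero.1 h8
      refine ⟨hinj _ _ e1, hinj _ _ ?_⟩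
      rw [e1] at h4
      exact add_left_cancel h4
    · right
      have e1 := sub_eq_zero.1 h8
      refine ⟨hinj _ _ e1, hinj _ _ ?_⟩
      rw [e1, add_comm] at h4
      exact add_right_cancel h4
  have hαinj : Function.Injective α := by
    intro i j hij
    rcases key i i j j (by rw [hij]) with h | h
    · exact h.1
    · exact h.1
  refine ⟨univ.image α, ?_, ?_⟩
  · rw [Finset.card_image_of_injective _ hαinj, Finset.card_univ, Fintype.card_fin]
  · intro x hx y hy z hz w hw h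
    obtain ⟨i, _, rfl⟩ := Finset.mem_image.1 hx
    obtain ⟨j, _, rfl⟩ := Finset.mem_image.1 hy
    obtain ⟨k, _, rfl⟩ := Finset.mem_image.1 hz
    obtain ⟨l, _, rfl⟩ := Finset.mem_image.1 hw
    rcases key i j k l h with ⟨e1, e2⟩ | ⟨e1, e2⟩
    · left; rw [e1, e2]; exact ⟨rfl, rfl⟩
    · right; rw [e1, e2]; exact ⟨rfl, rfl⟩

end Pool.Agent.H10.TI
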